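import Mathlib
import Pool.Agent.Q21.HG.Example

/-!
# The associated order in `K[G]` can be a Hopf order while the one in `H_λ` is not

`K = ℚ_5`, `L` the splitting field of `X³ - 5` (so `G ≅ S₃`, `|G|` is prime to `5`), `𝔅 = 𝔒_L`.
Then `𝔄_{K[G]} = ℤ_5[G]` is a Hopf order. Put `π = ∛5`. The element `T` of `H_λ` acting as
`x ↦ ∑_h Tr(h(π⁻²) x) h(π)` lies in `𝔄_λ`, and its coefficient at `λ(τ)`, where `τ(π) = π` and
`τ ≠ 1`, is `|G| π⁻¹`, which is not integral. In a Hopf order all coefficients would be integral.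
-/

set_option autoImplicit false

namespace Pool.Agent.Results.MP_eed25b_nt.HopfOrderCounterexample

open Pool.Agent.Q21.HG MonoidAlgebra

theorem smul_pi_mem {π : L5} (hπ : π ^ 3 = 5) (x : L5)
    (hx : x ∈ integralClosure ℤ_[5] L5) :
    Algebra.trace ℚ_[5] L5 (x * (π⁻¹) ^ 2) ∈ (algebraMap ℤ_[5] ℚ_[5]).range := by
  have hπ0 : π ≠ 0 := by
    rintro rfl
    have : (5 : L5) ≠ 0 := by norm_num
    exact this (by rw [← hπ]; simp)
  set t := Algebra.trace ℚ_[5] L5 (x * (π⁻¹) ^ 2) with ht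
  have h1 : IsIntegral ℤ_[5] (algebraMap ℚ_[5] L5 t * π ^ 2) := by
    rw [ht, trace_eq_sum_automorphisms, Finset.sum_mul]
    refine IsIntegral.sum _ fun g _ => ?_
    have h2 : (π / g π) ^ 3 = 1 := by
      rw [div_pow, ← map_pow, hπ, map_ofNat, div_self (by norm_num)]
    have h3 : g (x * (π⁻¹) ^ 2) * π ^ 2 = g x * (π / g π) ^ 2 := by
      rw [map_mul, map_pow, map_inv₀]
      ring
    rw [h3]
    refine IsIntegral.mul (map_mem_intCl (K := ℚ_[5]) ℤ_[5] g hx) (IsIntegral.pow ?_ 2)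
    refine IsIntegral.of_pow (n := 3) (by norm_num) ?_
    rw [h2]
    exact isIntegral_one
  have h4 : IsIntegral ℤ_[5] (algebraMap ℚ_[5] L5 (25 * t ^ 3)) := by
    have := h1.pow 3
    have e : (algebraMap ℚ_[5] L5 t * π ^ 2) ^ 3 = algebraMap ℚ_[5] L5 (25 * t ^ 3) := by
      rw [map_mul, map_pow, map_ofNat]
      have : π ^ 6 = 25 := by
        calc π ^ 6 = (π ^ 3) ^ 2 := by ring
          _ = 25 := by rw [hπ]; norm_num
      rw [mul_pow, ← pow_mul, show 2 * 3 = 6 from rfl, this]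
      ring
    rwa [e] at this
  have h5 : IsIntegral ℤ_[5] (25 * t ^ 3) :=
    (isIntegral_algebraMap_iff (algebraMap ℚ_[5] L5).injective).1 h4
  obtain ⟨a, ha⟩ := IsIntegrallyClosed.isIntegral_iff.1 h5
  have h6 : ‖(25 : ℚ_[5]) * t ^ 3‖ ≤ 1 := by
    rw [← ha]
    exact a.2
  have h7 : ‖t‖ ≤ 1 := by
    by_cases ht0 : t = 0
    · rw [ht0]; simp
    have h25 : ‖(25 : ℚ_[5])‖ = ((5 : ℕ) : ℝ) ^ (-2 : ℤ) := by
      have h8 : (25 : ℚ_[5]) = ((5 : ℕ) : ℚ_[5]) ^ 2 := by norm_num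
      rw [h8, norm_pow, Padic.norm_p]
      norm_num
    rw [norm_mul, norm_pow, h25, Padic.norm_eq_zpow_neg_valuation ht0, ← zpow_natCast,
      ← zpow_mul, ← zpow_add₀ (by norm_num)] at h6
    rw [Padic.norm_eq_zpow_neg_valuation ht0]
    rw [show (1 : ℝ) = ((5 : ℕ) : ℝ) ^ (0 : ℤ) by simp] at h6 ⊢
    rw [zpow_le_zpow_iff_right₀ (by norm_num)] at h6 ⊢
    push_cast at h6
    omega
  exact ⟨⟨t, h7⟩, rfl⟩

theorem pi_inv_not_integral {π : L5} (hπ : π ^ 3 = 5) : ¬ IsIntegral ℤ_[5] π⁻¹ := by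
  intro h
  have h1 := h.pow 3
  have e : (π⁻¹) ^ 3 = algebraMap ℚ_[5] L5 (5⁻¹) := by
    rw [inv_pow, hπ, map_inv₀, map_ofNat]
  rw [e] at h1
  have h5 : IsIntegral ℤ_[5] (5⁻¹ : ℚ_[5]) :=
    (isIntegral_algebraMap_iff (algebraMap ℚ_[5] L5).injective).1 h1
  obtain ⟨a, ha⟩ := IsIntegrallyClosed.isIntegral_iff.1 h5
  have h6 : ‖(5⁻¹ : ℚ_[5])‖ ≤ 1 := by
    rw [← ha]
    exact a.2
  have h7 : ‖(5 : ℚ_[5])‖ = (5 : ℝ)⁻¹ := by
    have := Padic.norm_p (p := 5)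
    simpa using this
  rw [norm_inv, h7, inv_inv] at h6
  norm_num at h6

section

variable (A K L : Type*) [CommRing A] [Field K] [Field L] [Algebra K L] [Algebra A K]
  [Algebra A L] [IsScalarTower A K L]

/-- `𝔄_{K[G]}` (for `𝔅 = 𝔒_L`, the integral closure of `A` in `L`) is a Hopf order in `K[G]`. -/
def ClassicalHopf : Prop :=
  IsHopfOrder A K K (⊤ : Subalgebra K (MonoidAlgebra K (L ≃ₐ[K] L)))
    (assocK (K := K) A (Subalgebra.toSubmodule (integralClosure A L)))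

/-- `𝔄_λ` (for `𝔅 = 𝔒_L`) is an order in `H_λ`. -/
def LambdaOrder : Prop :=
  IsOrder A K (Hlam K L) (assocLam (K := K) A (Subalgebra.toSubmodule (integralClosure A L)))

/-- `𝔄_λ` (for `𝔅 = 𝔒_L`) is a Hopf order in `H_λ`. -/
def LambdaHopf : Prop :=
  IsHopfOrder A K L (Hlam K L)
    (assocLam (K := K) A (Subalgebra.toSubmodule (integralClosure A L)))

end

/-- There is a finite Galois extension `L/ℚ_5` with nonabelian Galois group such that, with
`𝔅 = 𝔒_L`, the associated order `𝔄_{K[G]}` is a Hopf order in `K[G]`, whereas `𝔄_λ` (an order of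
`H_λ`) is not a Hopf order in `H_λ`. -/
theorem result : ∃ (L : Type) (_ : Field L) (_ : Algebra ℚ_[5] L) (_ : Algebra ℤ_[5] L)
    (_ : IsScalarTower ℤ_[5] ℚ_[5] L),
    FiniteDimensional ℚ_[5] L ∧ IsGalois ℚ_[5] L ∧ (∃ g h : L ≃ₐ[ℚ_[5]] L, g * h ≠ h * g) ∧
    ClassicalHopf ℤ_[5] ℚ_[5] L ∧ LambdaOrder ℤ_[5] ℚ_[5] L ∧ ¬ LambdaHopf ℤ_[5] ℚ_[5] L := by
  obtain ⟨π, ζ, hπ, hζ⟩ := exists_pi
  obtain ⟨τ, hτπ, hτζ⟩ := exists_tau hπ hζ
  obtain ⟨σ, hσ⟩ := exists_sigma hπ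
  have hζ3 : ζ ^ 3 = 1 := by linear_combination (ζ - 1) * hζ
  have hπ0 : π ≠ 0 := by
    rintro rfl
    have : (5 : L5) ≠ 0 := by norm_num
    exact this (by rw [← hπ]; simp)
  have hζ1 : ζ ≠ 1 := by
    rintro rfl
    norm_num at hζ
  have hτζ2 : τ ζ = ζ ^ 2 := by
    have h1 : (τ ζ) ^ 3 = 1 := by rw [← map_pow, hζ3, map_one]
    rcases cube_roots hζ h1 with h | h | h
    · exact absurd (τ.injective (by rw [h, map_one])) hζ1
    · exact absurd h hτζ
    · exact h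
  have hτρ : ∀ ρ : L5, ρ ^ 3 = 1 → τ ρ = ρ ^ 2 := by
    intro ρ hρ
    rcases cube_roots hζ hρ with rfl | rfl | rfl
    · simp
    · exact hτζ2
    · rw [map_pow, hτζ2]
  have hτρ' : ∀ ρ : L5, ρ ^ 3 = 1 → τ⁻¹ ρ = ρ ^ 2 := by
    intro ρ hρ
    apply τ.injective
    have h1 : τ (τ⁻¹ ρ) = ρ := AlgEquiv.apply_symm_apply τ ρ
    rw [h1, map_pow, hτρ ρ hρ]
    linear_combination -ρ * hρ
  have hτπ' : τ⁻¹ π = π := by
    apply τ.injective
    have h1 : τ (τ⁻¹ π) = π := AlgEquiv.apply_symm_apply τ π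
    rw [h1, hτπ]
  have hcube : ∀ g : L5 ≃ₐ[ℚ_[5]] L5, (g π / π) ^ 3 = 1 := by
    intro g
    rw [div_pow, ← map_pow, hπ, map_ofNat, div_self (by norm_num)]
  refine ⟨L5, inferInstance, inferInstance, inferInstance, inferInstance, inferInstance,
    inferInstance, ⟨σ, τ, ?_⟩, assocK_isHopfOrder card5_unit, ?_, ?_⟩
  · intro h
    have h1 : σ (τ π) = τ (σ π) := by
      have := congrArg (fun f : L5 ≃ₐ[ℚ_[5]] L5 => f π) h
      exact this
    rw [hτπ] at h1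
    have h2 : σ π = (σ π / π) * π := by field_simp
    have h3 : τ (σ π) = (σ π / π) ^ 2 * π := by
      conv_lhs => rw [h2]
      rw [map_mul, hτρ _ (hcube σ), hτπ]
    rw [h3] at h1
    have h4 : (σ π / π) = (σ π / π) ^ 2 := by
      apply mul_right_cancel₀ hπ0
      rw [← h1, ← h2]
    have h5 : σ π / π = 1 := by
      have h6 : σ π / π ≠ 0 := by
        intro h0
        have := hcube σ
        rw [h0] at this
        norm_num at this
      have h7 : (σ π / π) * (σ π / π - 1) = 0 := by linear_combination -h4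
      exact sub_eq_zero.1 ((mul_eq_zero.1 h7).resolve_left h6)
    exact hσ ((div_eq_one_iff_eq hπ0).1 h5)
  · unfold LambdaOrder
    rw [assocLam_eq]
    exact assocOrder_isOrder ℤ_[5]
  · intro hH
    have hT : T (K := ℚ_[5]) ((π⁻¹) ^ 2) π ∈ assocLam (K := ℚ_[5]) ℤ_[5]
        (Subalgebra.toSubmodule (integralClosure ℤ_[5] L5)) := by
      rw [assocLam_eq]
      refine T_mem_assoc ℤ_[5] (fun x hx => smul_pi_mem hπ x hx) ?_
      rw [mem_integralClosure_iff]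
      refine IsIntegral.of_pow (n := 3) (by norm_num) ?_
      rw [hπ]
      have : IsIntegral ℤ_[5] (algebraMap ℤ_[5] L5 5) := isIntegral_algebraMap
      rwa [map_ofNat] at this
    have h1 := isIntegral_coeff_of_assocLam card5_unit hH hT (lamN τ)
    have h2 : (T (K := ℚ_[5]) ((π⁻¹) ^ 2) π).coeff (lamN τ) =
        ∑ h : L5 ≃ₐ[ℚ_[5]] L5, h π * τ⁻¹ (h ((π⁻¹) ^ 2)) := by
      classical
      unfold T
      rw [MonoidAlgebra.coeff_sum, Finsupp.finsetSum_apply]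
      rw [Finset.sum_eq_single τ]
      · simp
      · intro b _ hb
        rw [coeff_single, Finsupp.single_apply, if_neg]
        intro h
        exact hb (lamN_injective h)
      · intro h
        exact absurd (Finset.mem_univ _) h
    have h3 : ∀ h : L5 ≃ₐ[ℚ_[5]] L5, h π * τ⁻¹ (h ((π⁻¹) ^ 2)) = π⁻¹ := by
      intro h
      have e1 : h π = (h π / π) * π := by field_simp
      set ρ := h π / π with hρ
      have hρ3 : ρ ^ 3 = 1 := hcube h
      have hρ0 : ρ ≠ 0 := by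
        intro h0
        rw [h0] at hρ3
        norm_num at hρ3
      rw [map_pow, map_inv₀, e1, map_pow, map_inv₀, map_mul, hτρ' ρ hρ3, hτπ']
      field_simp
      linear_combination -hρ3
    rw [h2, Finset.sum_congr rfl (fun h _ => h3 h), Finset.sum_const, Finset.card_univ,
      nsmul_eq_mul] at h1
    obtain ⟨d, hd⟩ := card5_unit
    apply pi_inv_not_integral hπ
    have h4 : (π⁻¹ : L5) = algebraMap ℤ_[5] L5 (d⁻¹ : ℤ_[5]ˣ) *
        ((Fintype.card (L5 ≃ₐ[ℚ_[5]] L5) : L5) * π⁻¹) := by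
      have h9 : (Fintype.card (L5 ≃ₐ[ℚ_[5]] L5) : L5) = algebraMap ℤ_[5] L5 d := by
        rw [hd, map_natCast, Nat.card_eq_fintype_card]
      rw [h9, ← mul_assoc, ← map_mul, Units.inv_mul, map_one, _root_.one_mul]
    rw [h4]
    exact isIntegral_algebraMap.mul h1

end Pool.Agent.Results.MP_eed25b_nt.HopfOrderCounterexample
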